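import Pool.Agent.W602.GT.Cx

/-!
MP_c6ff8d_ag, Q1: Lang's conjecture for projective varieties given by sums of few high powers, or by
few monomials with large exponents.
-/

set_option autoImplicit false

namespace Pool.Agent.Results.MP_c6ff8d_ag.HighPowerSystems

open Pool.Agent.W602.GT Pool.Agent.H159R3.GGL

/-- Let `X` be a complex projective variety given by sums of at most `s` high powers of linear
forms, or by forms with at most `s` monomials and highly divisible exponents. Then `X` contains no
entire curve if and only if all its closed subvarieties of positive dimension are of general type,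
and if and only if there are no nonconstant morphisms from the multiplicative group to `X`. -/
theorem result {n : ℕ} {ι : Type} {F : ι → MvPolynomial (Fin (n + 1)) ℂ} {s N : ℕ}
    (hF : HighPowers s N F) (hN : 1 ≤ N)
    (hsN : n * ((s + 1) * ((s - 1) * (s - 2) / 2)) ≤ N) :
    [∀ f, ¬ EntireCurve F f, AllGeneralType F, ∀ P, ¬ GmCurve F P].TFAE :=
  lang_iff hF hN hsN

end Pool.Agent.Results.MP_c6ff8d_ag.HighPowerSystems
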