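import Pool.Agent.W619.X.Fin

/-! Projective manifolds birational to quotients of (generically finite covers of) products of
curves: general type, or covered by images of a rational or elliptic curve. -/

set_option autoImplicit false
set_option linter.overlappingInstances false

universe u

open FF IntermediateField Pool.Agent.W619.PQ Pool.Agent.W619.PL Pool.Agent.W619.TW
  Pool.Agent.W619.X

namespace Pool.Agent.Results.MP_c6ff8d_ag.ProductQuotients

/-- Let `Z` be a projective variety of dimension `n` with function field `L`, `F i` (`i < n`) the
function fields of curves `C i` with rational maps `Z → C i` such that `Z → ∏ C i` is generically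
finite (`halg`), `G` a finite group of automorphisms of `L` preserving each `F i`, and `X` a
projective manifold birational to `Z / G`. Assume `PosCond`, for instance that each `g ≠ 1` in `G`
moves at least `7` of the curves, or that each `g ≠ 1` moves at least `2` of the curves and each
`C i / G` is irrational or has at least `5` branch points. If the curves have genus at least two,
then `X` is of general type. If `Z` is the product of the curves and one of the curves is rational
or elliptic, then `X` is covered by images of a fixed rational or elliptic curve, and hence not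
hyperbolic. -/
theorem result {L : Type u} [Field L] [Algebra ℂ L] (n : ℕ) (hn : Algebra.trdeg ℂ L = n)
    (F : Fin n → IntermediateField ℂ L) (hF : ∀ i, IsFF ℂ (F i))
    (halg : Algebra.IsAlgebraic ↥(⨆ i, F i) L)
    (G : Subgroup (L ≃ₐ[ℂ] L)) [Finite G] (hst : ∀ i, ∀ g ∈ G, ∀ z ∈ F i, g z ∈ F i)
    (h : PosCond G F) :
    ((∀ i, ¬ (∃ t : F i, ℂ⟮t⟯ = ⊤) ∧ ¬ IsElliptic (F i)) →
      KodGe ℂ (fixedField G) n (fun _ => False) n) ∧
    ((⨆ i, F i = ⊤) → (∃ i, (∃ t : F i, ℂ⟮t⟯ = ⊤) ∨ IsElliptic (F i)) →
      IsRatEllCovered ℂ (fixedField G) n) :=
  gtC n hn F hF halg G hst h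

end Pool.Agent.Results.MP_c6ff8d_ag.ProductQuotients
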